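import Pool.Agent.N204.HR.Stm4
import Pool.Agent.N816.HR.Hd

/-!
# The hard Lefschetz theorem from the Hodge-Riemann relations
-/

set_option linter.unusedSectionVars false

open CategoryTheory AlgebraicGeometry TensorProduct

universe u

namespace Pool.Agent.N776.HR

/-- The product with `1 ⊗ a` is the extension of the product with `a`. -/
lemma one_tmul_mul {K A E : Type} [Field K] [Ring A] [Algebra K A] [Field E] [Algebra K E]
    (a : A) (x : E ⊗[K] A) :
    ((1 : E) ⊗ₜ[K] a) * x = (LinearMap.mulLeft K a).baseChange E x := by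
  induction x using TensorProduct.induction_on with
  | zero => simp
  | tmul e b =>
    rw [Algebra.TensorProduct.tmul_mul_tmul, one_mul, LinearMap.baseChange_tmul,
      LinearMap.mulLeft_apply]
  | add x y hx hy => rw [mul_add, hx, hy, map_add]

/-- Injectivity of a product after extension of the coefficients. -/
lemma alg_inj {K A E : Type} [Field K] [Ring A] [Algebra K A] [Field E] [Algebra K E]
    (V : Submodule K A) (a : A) (h : ∀ v ∈ V, a * v = 0 → v = 0) (x : E ⊗[K] A)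
    (hx : x ∈ V.baseChange E) (h0 : ((1 : E) ⊗ₜ[K] a) * x = 0) : x = 0 := by
  obtain ⟨y, rfl⟩ := hx
  rw [one_tmul_mul] at h0
  have h1 : ((LinearMap.mulLeft K a ∘ₗ V.subtype).baseChange E) y = 0 := by
    rw [LinearMap.baseChange_comp]
    exact h0
  have h2 : Function.Injective (LinearMap.mulLeft K a ∘ₗ V.subtype) := by
    rw [injective_iff_map_eq_zero]
    intro v hv
    exact Subtype.ext (h v.1 v.2 hv)
  have h3 := Module.Flat.lTensor_preserves_injective_linearMap (M := E)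
    (LinearMap.mulLeft K a ∘ₗ V.subtype) h2
  have h4 : y = 0 := by
    apply h3
    rw [map_zero]
    exact h1
  rw [h4, map_zero]

/-- The powers of `1 ⊗ a`. -/
lemma alg_inj_pow {K A E : Type} [Field K] [Ring A] [Algebra K A] [Field E] [Algebra K E]
    (V : Submodule K A) (a : A) (n : ℕ) (h : ∀ v ∈ V, a ^ n * v = 0 → v = 0) (x : E ⊗[K] A)
    (hx : x ∈ V.baseChange E) (h0 : ((1 : E) ⊗ₜ[K] a) ^ n * x = 0) : x = 0 := by
  rw [Algebra.TensorProduct.tmul_pow, one_pow] at h0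
  exact alg_inj V (a ^ n) h x hx h0

open Module
open Pool.Agent.H914 Pool.Agent.H914.VarClass Pool.Agent.H914.VarClass.Obj
  Pool.Agent.H914.WeilCohomology
open Pool.Agent.Y121.AH (CW em)
open Pool.Agent.Y121.AHS
open Pool.Agent.N816.HR
open Pool.Agent.N204.HR (clC)

section

variable {k : Type u} [Field k] {𝒱 : VarClass k} {ops : CycleOps 𝒱} {T : HodgeTheory ops}
  {Y : 𝒱.Obj}

/-- Complex coefficients. -/
lemma hlC {D : Y.Cycles} (hR : Pool.Agent.N204.HR.Def.HodgeRiemann T Y D) {i : ℕ}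
    (hi : i ≤ Y.dim) {x : (CW (toH T)).H Y} (hx : x ∈ (CW (toH T)).gr Y i)
    (h0 : clC T Y D ^ (Y.dim - i) * x = 0) : x = 0 := by
  classical
  obtain ⟨hD, hpos⟩ := hR
  obtain ⟨s, hs, hsum⟩ := sum_prt hx
  set l := clC T Y D with hl
  set m := Y.dim - i with hm
  rw [hsum]
  refine Finset.sum_eq_zero fun r hr => ?_
  by_contra hne
  have hz : l ^ m * prt T Y r x = 0 := by
    rw [← prt_mul (pow_mem hD m) r x, h0, map_zero]
  have hz1 : l ^ (m + 1) * prt T Y r x = 0 := by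
    rw [pow_succ', mul_assoc, hz, mul_zero]
  have h1 : (mulL (emL T.W ℂ (T.W.cl Y D)))^[m + 1]
      (show HL T.W ℂ Y from prt T Y r x) = (0 : HL T.W ℂ Y) :=
    (iter_mul (T := T) (Y := Y) (emL T.W ℂ (T.W.cl Y D)) (m + 1) (prt T Y r x)).trans hz1
  have h2 : (mulL (emL T.W ℂ (T.W.cl Y D)))^[m]
      (show HL T.W ℂ Y from prt T Y r x) = (0 : HL T.W ℂ Y) :=
    (iter_mul (T := T) (Y := Y) (emL T.W ℂ (T.W.cl Y D)) m (prt T Y r x)).trans hz
  obtain ⟨-, -, -, h3⟩ := hpos r.1 r.2 (prt T Y r x) (prt_mem r x) hne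
  obtain ⟨ρ, hρ, hρ1⟩ := h3 i (hs r hr) hi h1
  have h4 : mulL ((mulL (emL T.W ℂ (T.W.cl Y D)))^[m] (show HL T.W ℂ Y from prt T Y r x))
      (Pool.Agent.N996.BP.extConj T.rat (show HL T.W ℂ Y from prt T Y r x)) =
      (0 : HL T.W ℂ Y) := by
    rw [h2]
    exact zero_mul (show (CW (toH T)).H Y from
      (Pool.Agent.N996.BP.extConj T.rat (show HL T.W ℂ Y from prt T Y r x)))
  have h5 : trL (0 : HL T.W ℂ Y) = (0 : ℂ) := map_zero ((CW (toH T)).tr Y)
  have h6 : (-1 : ℂ) ^ (i * (i - 1) / 2) * Complex.I ^ (r.1 - r.2) *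
      trL (mulL ((mulL (emL T.W ℂ (T.W.cl Y D)))^[m] (show HL T.W ℂ Y from prt T Y r x))
        (Pool.Agent.N996.BP.extConj T.rat (show HL T.W ℂ Y from prt T Y r x))) = ρ := hρ1
  rw [h4, h5, mul_zero] at h6
  have h7 : ρ = 0 := by exact_mod_cast h6.symm
  exact hρ.ne' h7

/-- Rational coefficients. -/
lemma hlQ {D : Y.Cycles} (hR : Pool.Agent.N204.HR.Def.HodgeRiemann T Y D) {i : ℕ}
    (hi : i ≤ Y.dim) {x : T.W.H Y} (hx : x ∈ T.W.gr Y i)
    (h0 : T.W.cl Y D ^ (Y.dim - i) * x = 0) : x = 0 := by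
  have h1 : (em T.W ℂ x : (baseW T.W ℂ).H Y) = 0 := by
    refine hlC (x := em T.W ℂ x) hR hi (Submodule.tmul_mem_baseChange_of_mem (1 : ℂ) hx) ?_
    have h2 : ((1 : ℂ) ⊗ₜ[T.W.K] T.W.cl Y D) ^ (Y.dim - i) * ((1 : ℂ) ⊗ₜ[T.W.K] x) =
        (0 : ℂ ⊗[T.W.K] T.W.H Y) := by
      rw [Algebra.TensorProduct.tmul_pow, Algebra.TensorProduct.tmul_mul_tmul, h0,
        TensorProduct.tmul_zero]
    exact h2
  exact tmul_injective (L := ℂ) x h1

end

/-- **The hard Lefschetz theorem from the Hodge-Riemann relations.** -/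
theorem p1 : Pool.Agent.N204.HR.S_P1.{u} := by
  intro k _ 𝒱 ops T Y D hR
  refine ⟨fun i hi x hx h0 => hlQ hR hi hx h0, ?_⟩
  intro E _ _ i hi x hx h0
  exact alg_inj_pow (E := E) (T.W.gr Y i) (T.W.cl Y D) (Y.dim - i)
    (fun v hv h => hlQ hR hi hv h) x hx h0

end Pool.Agent.N776.HR
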